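import Mathlib

open Finset

namespace Pool.Agent.Results.MP_c14f63_co.OrderOfGrowth

/-- The vertex set of the cube. -/
abbrev Vert (n : ℕ) : Type := Fin n → Bool

/-- The hypercube graph: two vertices are adjacent when they differ in exactly one coordinate. -/
def Q (n : ℕ) : SimpleGraph (Vert n) where
  Adj x y := ∃! i, x i ≠ y i
  symm := ⟨by
    rintro x y ⟨i, hi, h⟩
    exact ⟨i, fun e => hi e.symm, fun j hj => h j (fun e => hj e.symm)⟩⟩
  loopless := ⟨by
    rintro x ⟨i, hi, -⟩
    exact hi rfl⟩

/-- The antipode of a vertex. -/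
def anti {n : ℕ} (v : Vert n) : Vert n := fun i => !(v i)

/-- A red-blue edge colouring of the cube: any map from the edge set to `Bool`. -/
abbrev Colouring (n : ℕ) : Type := (Q n).edgeSet → Bool

/-- The number of places where two consecutive entries of a list differ. -/
def numChanges : List Bool → ℕ
  | [] => 0
  | [_] => 0
  | a :: b :: l => (if a = b then 0 else 1) + numChanges (b :: l)

/-- The colours of the consecutive edges of a walk. -/
def colours {n : ℕ} (χ : Colouring n) {u v : Vert n} (w : (Q n).Walk u v) : List Bool :=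
  w.darts.map (fun d => χ ⟨d.edge, d.edge_mem⟩)

/-- The least number of colour changes over all paths from `v` to its antipode. -/
noncomputable def m {n : ℕ} (χ : Colouring n) (v : Vert n) : ℕ :=
  sInf {k : ℕ | ∃ w : (Q n).Walk v (anti v), w.IsPath ∧ numChanges (colours χ w) = k}

/-- The average of `m χ v` over all vertices. -/
noncomputable def A {n : ℕ} (χ : Colouring n) : ℝ := (∑ v : Vert n, (m χ v : ℝ)) / 2 ^ n

/-- The maximum of `A χ` over all colourings. -/
noncomputable def M (n : ℕ) : ℝ := ⨆ χ : Colouring n, A χ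

/-! ### Flips and connectivity -/

/-- Flip one coordinate. -/
def flip {n : ℕ} (y : Vert n) (i : Fin n) : Vert n := Function.update y i (!(y i))

theorem flip_same {n : ℕ} (y : Vert n) (i : Fin n) : flip y i i = !(y i) := by simp [flip]

theorem flip_ne {n : ℕ} (y : Vert n) {i j : Fin n} (h : j ≠ i) : flip y i j = y j := by
  simp [flip, h]

theorem flip_flip {n : ℕ} (y : Vert n) (i : Fin n) : flip (flip y i) i = y := by
  funext j
  by_cases h : j = i
  · subst h; simp [flip]
  · simp [flip, h]

theorem adj_flip {n : ℕ} (y : Vert n) (i : Fin n) : (Q n).Adj y (flip y i) := by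
  refine ⟨i, ?_, ?_⟩
  · simp [flip]
  · intro j hj
    by_contra h
    exact hj (by simp [flip, h])

theorem adj_iff_flip {n : ℕ} {x y : Vert n} (h : (Q n).Adj x y) : ∃ i, y = flip x i := by
  obtain ⟨i, hi, hu⟩ := h
  refine ⟨i, ?_⟩
  funext j
  by_cases hj : j = i
  · subst hj
    simp only [flip, Function.update_self]
    revert hi
    cases x j <;> cases y j <;> simp
  · have : ¬ (x j ≠ y j) := fun h' => hj (hu j h')
    simp only [flip, Function.update_of_ne hj]
    exact (not_not.mp this).symm

theorem exists_walk {n : ℕ} (u v : Vert n) : Nonempty ((Q n).Walk u v) := by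
  induction hk : (univ.filter (fun i => u i ≠ v i)).card using Nat.strong_induction_on
    generalizing u with
  | _ k ih =>
    by_cases huv : u = v
    · subst huv; exact ⟨SimpleGraph.Walk.nil⟩
    · obtain ⟨i, hi⟩ := Function.ne_iff.mp huv
      have hlt : (univ.filter (fun j => flip u i j ≠ v j)).card < k := by
        rw [← hk]
        apply Finset.card_lt_card
        refine ⟨?_, ?_⟩
        · intro j hj
          simp only [Finset.mem_filter, Finset.mem_univ, true_and] at hj ⊢
          by_cases hji : j = i
          · subst hji; exact hi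
          · rwa [flip_ne u hji] at hj
        · intro hsub
          have := hsub (show i ∈ univ.filter (fun j => u j ≠ v j) by simp [hi])
          simp only [Finset.mem_filter, Finset.mem_univ, true_and, flip_same] at this
          revert this hi
          cases u i <;> cases v i <;> simp
      obtain ⟨w⟩ := ih _ hlt (flip u i) rfl
      exact ⟨SimpleGraph.Walk.cons (adj_flip u i) w⟩

/-! ### Counting changes -/

theorem numChanges_cons_le (a : Bool) (l : List Bool) :
    numChanges l ≤ numChanges (a :: l) := by
  cases l with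
  | nil => simp [numChanges]
  | cons b l => simp [numChanges]

theorem numChanges_cons_le_succ (a : Bool) (l : List Bool) :
    numChanges (a :: l) ≤ numChanges l + 1 := by
  cases l with
  | nil => simp [numChanges]
  | cons b l => simp only [numChanges]; split_ifs <;> omega

theorem numChanges_cons_cons (a b : Bool) (l : List Bool) :
    numChanges (a :: l) ≤ (if a = b then 0 else 1) + numChanges (b :: l) := by
  by_cases h : a = b
  · subst h; simp
  · rw [if_neg h]
    have h1 := numChanges_cons_le_succ a l
    have h2 := numChanges_cons_le b l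
    omega

theorem numChanges_sublist {l₁ l₂ : List Bool} (h : l₁.Sublist l₂) :
    numChanges l₁ ≤ numChanges l₂ := by
  have key : ∀ {l₁ l₂ : List Bool}, l₁.Sublist l₂ →
      numChanges l₁ ≤ numChanges l₂ ∧ ∀ a, numChanges (a :: l₁) ≤ numChanges (a :: l₂) := by
    intro l₁ l₂ h
    induction h with
    | slnil => exact ⟨le_rfl, fun a => le_rfl⟩
    | @cons l₁ l₂ b h ih =>
      refine ⟨ih.1.trans (numChanges_cons_le _ _), fun a => ?_⟩
      have h1 := numChanges_cons_cons a b l₁
      have h2 := ih.2 b
      have h3 : numChanges (a :: b :: l₂) = (if a = b then 0 else 1) + numChanges (b :: l₂) := by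
        simp [numChanges]
      omega
    | cons_cons b h ih =>
      refine ⟨ih.2 b, fun a => ?_⟩
      simp only [numChanges]
      have := ih.2 b
      omega
  exact (key h).1

theorem numChanges_append_single (l : List Bool) (a b : Bool) :
    numChanges (l ++ [a]) ≤ numChanges (l ++ [b]) + 1 := by
  induction l with
  | nil => simp [numChanges]
  | cons c l ih =>
    cases l with
    | nil =>
      simp only [List.nil_append, List.cons_append, numChanges]
      split_ifs <;> omega
    | cons d l =>
      simp only [List.cons_append, numChanges] at ih ⊢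
      omega

theorem numChanges_append_double (l : List Bool) (a : Bool) :
    numChanges (l ++ [a] ++ [a]) = numChanges (l ++ [a]) := by
  induction l with
  | nil => simp [numChanges]
  | cons c l ih =>
    cases l with
    | nil => simp [numChanges]
    | cons d l =>
      simp only [List.cons_append, numChanges] at ih ⊢
      omega

/-! ### The potential -/

section potential

variable {n : ℕ} (χ : Colouring n)

/-- The least number of changes from `v` to `x` when an extra last colour `c` is added. -/
noncomputable def D (v x : Vert n) (c : Bool) : ℕ :=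
  sInf {k : ℕ | ∃ w : (Q n).Walk v x, numChanges (colours χ w ++ [c]) = k}

theorem D_spec (v x : Vert n) (c : Bool) :
    ∃ w : (Q n).Walk v x, numChanges (colours χ w ++ [c]) = D χ v x c := by
  have hne : {k : ℕ | ∃ w : (Q n).Walk v x, numChanges (colours χ w ++ [c]) = k}.Nonempty := by
    obtain ⟨w⟩ := exists_walk v x
    exact ⟨_, w, rfl⟩
  exact Nat.sInf_mem hne

theorem D_le (v x : Vert n) (c : Bool) (w : (Q n).Walk v x) :
    D χ v x c ≤ numChanges (colours χ w ++ [c]) :=
  Nat.sInf_le ⟨w, rfl⟩

theorem D_self (v : Vert n) (c : Bool) : D χ v v c = 0 := by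
  have := D_le χ v v c SimpleGraph.Walk.nil
  simpa [colours, numChanges] using this

theorem D_le_succ (v x : Vert n) (c c' : Bool) : D χ v x c ≤ D χ v x c' + 1 := by
  obtain ⟨w, hw⟩ := D_spec χ v x c'
  have h1 := D_le χ v x c w
  have h2 := numChanges_append_single (colours χ w) c c'
  omega

/-- The colour of the edge at `y` in direction `i`. -/
def col (y : Vert n) (i : Fin n) : Bool :=
  χ ⟨s(y, flip y i), (SimpleGraph.mem_edgeSet (Q n)).mpr (adj_flip y i)⟩

theorem col_flip (y : Vert n) (i : Fin n) : col χ (flip y i) i = col χ y i := by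
  unfold col
  congr 1
  apply Subtype.ext
  show s(flip y i, flip (flip y i) i) = s(y, flip y i)
  rw [flip_flip, Sym2.eq_swap]

theorem colours_concat {u v x : Vert n} (w : (Q n).Walk u v) (h : (Q n).Adj v x) :
    colours χ (w.concat h) = colours χ w ++ [χ ⟨s(v, x), (SimpleGraph.mem_edgeSet (Q n)).mpr h⟩] := by
  unfold colours
  rw [SimpleGraph.Walk.darts_concat]
  simp [List.concat_eq_append]

theorem D_flip_le (v y : Vert n) (i : Fin n) :
    D χ v (flip y i) (col χ y i) ≤ D χ v y (col χ y i) := by
  obtain ⟨w, hw⟩ := D_spec χ v y (col χ y i)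
  have h1 := D_le χ v (flip y i) (col χ y i) (w.concat (adj_flip y i))
  rw [colours_concat] at h1
  have h2 : numChanges (colours χ w ++ [col χ y i] ++ [col χ y i])
      = numChanges (colours χ w ++ [col χ y i]) := numChanges_append_double _ _
  unfold col at h1 h2 hw ⊢
  rw [h2, hw] at h1
  exact h1

theorem D_flip (v y : Vert n) (i : Fin n) :
    D χ v (flip y i) (col χ (flip y i) i) = D χ v y (col χ y i) := by
  apply le_antisymm
  · rw [col_flip]; exact D_flip_le χ v y i
  · have := D_flip_le χ v (flip y i) i
    rw [flip_flip] at this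
    rw [col_flip] at this ⊢
    exact this

theorem m_le_D (v : Vert n) (c : Bool) : m χ v ≤ D χ v (anti v) c := by
  obtain ⟨w, hw⟩ := D_spec χ v (anti v) c
  have h1 : m χ v ≤ numChanges (colours χ w.bypass) :=
    Nat.sInf_le ⟨w.bypass, w.bypass_isPath, rfl⟩
  have h2 : numChanges (colours χ w.bypass) ≤ numChanges (colours χ w) :=
    numChanges_sublist (w.darts_bypass_sublist_darts.map _)
  have h3 : numChanges (colours χ w) ≤ numChanges (colours χ w ++ [c]) :=
    numChanges_sublist (List.sublist_append_left _ _)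
  omega

end potential

/-! ### The noise argument -/

section noise

variable {n : ℕ}

/-- The weight of one coordinate. -/
noncomputable def wt (b : Bool) (t : ℝ) : ℝ := if b then t else 1 - t

/-- The score of one coordinate. -/
noncomputable def xi (b : Bool) (t : ℝ) : ℝ := if b then 1 / t else -(1 / (1 - t))

/-- The product weight. -/
noncomputable def W (K : Vert n) (t : ℝ) : ℝ := ∏ i, wt (K i) t

/-- The vertex obtained from `v` by flipping the coordinates in `K`. -/
def shift (v K : Vert n) : Vert n := fun i => xor (v i) (K i)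

theorem sum_W (t : ℝ) : ∑ K : Vert n, W K t = 1 := by
  have h := Finset.prod_univ_sum (fun _ : Fin n => (univ : Finset Bool)) (fun _ b => wt b t)
  rw [Fintype.piFinset_univ] at h
  unfold W
  rw [← h]
  simp [wt]

theorem wt_nonneg (b : Bool) {t : ℝ} (h0 : 0 ≤ t) (h1 : t ≤ 1) : 0 ≤ wt b t := by
  unfold wt; split_ifs <;> linarith

theorem W_nonneg (K : Vert n) {t : ℝ} (h0 : 0 ≤ t) (h1 : t ≤ 1) : 0 ≤ W K t :=
  Finset.prod_nonneg fun _ _ => wt_nonneg _ h0 h1

theorem wt_mul_xi (b : Bool) {t : ℝ} (h0 : 0 < t) (h1 : t < 1) :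
    wt b t * xi b t = if b then 1 else -1 := by
  have : (1 - t) ≠ 0 := by linarith
  cases b <;> simp [wt, xi] <;> field_simp

theorem W_mul_xi_flip (K : Vert n) (i : Fin n) {t : ℝ} (h0 : 0 < t) (h1 : t < 1) :
    W (flip K i) t * xi (flip K i i) t = -(W K t * xi (K i) t) := by
  have e1 : ∀ L : Vert n, W L t = wt (L i) t * ∏ j ∈ univ.erase i, wt (L j) t := fun L =>
    (Finset.mul_prod_erase univ (fun j => wt (L j) t) (mem_univ i)).symm
  have e2 : ∏ j ∈ univ.erase i, wt (flip K i j) t = ∏ j ∈ univ.erase i, wt (K j) t := by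
    apply Finset.prod_congr rfl
    intro j hj
    rw [flip_ne K (Finset.ne_of_mem_erase hj)]
  rw [e1 (flip K i), e1 K, e2]
  have a1 := wt_mul_xi (flip K i i) h0 h1
  have a2 := wt_mul_xi (K i) h0 h1
  have a3 : (if flip K i i then (1 : ℝ) else -1) = -(if K i then (1 : ℝ) else -1) := by
    rw [flip_same]; cases K i <;> simp
  calc wt (flip K i i) t * (∏ j ∈ univ.erase i, wt (K j) t) * xi (flip K i i) t
      = (wt (flip K i i) t * xi (flip K i i) t) * ∏ j ∈ univ.erase i, wt (K j) t := by ring
    _ = -((wt (K i) t * xi (K i) t) * ∏ j ∈ univ.erase i, wt (K j) t) := by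
        rw [a1, a2, a3]; ring
    _ = _ := by ring

/-- The flip as a permutation. -/
def flipPerm (i : Fin n) : Equiv.Perm (Vert n) where
  toFun K := flip K i
  invFun K := flip K i
  left_inv K := flip_flip K i
  right_inv K := flip_flip K i

theorem sum_flip_zero (i : Fin n) {t : ℝ} (h0 : 0 < t) (h1 : t < 1) (g : Vert n → ℝ)
    (hg : ∀ K, g (flip K i) = g K) : ∑ K : Vert n, W K t * xi (K i) t * g K = 0 := by
  have h := Equiv.sum_comp (flipPerm i) (fun K : Vert n => W K t * xi (K i) t * g K)
  have h2 : ∑ K : Vert n, W (flipPerm i K) t * xi (flipPerm i K i) t * g (flipPerm i K)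
      = -∑ K : Vert n, W K t * xi (K i) t * g K := by
    rw [← Finset.sum_neg_distrib]
    apply Finset.sum_congr rfl
    intro K _
    show W (flip K i) t * xi (flip K i i) t * g (flip K i) = _
    rw [W_mul_xi_flip K i h0 h1, hg]
    ring
  rw [h2] at h
  linarith

theorem xi_sq (b : Bool) {t : ℝ} (h0 : 0 < t) (h1 : t < 1) :
    xi b t * xi b t = 1 / (t * (1 - t)) + (1 / t - 1 / (1 - t)) * xi b t := by
  have : (1 - t) ≠ 0 := by linarith
  have : t ≠ 0 := by linarith
  cases b <;> simp [xi] <;> field_simp <;> ring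

theorem second_moment {t : ℝ} (h0 : 0 < t) (h1 : t < 1) (e : Fin n → ℝ)
    (he : ∀ i, e i * e i = 1) :
    ∑ K : Vert n, W K t * (∑ i, xi (K i) t * e i) ^ 2 = n / (t * (1 - t)) := by
  have h2 : ∀ i j : Fin n, ∑ K : Vert n, W K t * xi (K i) t * xi (K j) t
      = if i = j then 1 / (t * (1 - t)) else 0 := by
    intro i j
    split_ifs with hij
    · subst hij
      have e1 : ∀ K : Vert n, W K t * xi (K i) t * xi (K i) t
          = W K t * (1 / (t * (1 - t)))
            + (1 / t - 1 / (1 - t)) * (W K t * xi (K i) t * 1) := by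
        intro K
        rw [mul_assoc, xi_sq _ h0 h1]
        ring
      rw [Finset.sum_congr rfl (fun K _ => e1 K), Finset.sum_add_distrib, ← Finset.sum_mul,
        ← Finset.mul_sum, sum_W, sum_flip_zero i h0 h1 (fun _ => 1) (fun _ => rfl)]
      ring
    · exact sum_flip_zero i h0 h1 (fun K => xi (K j) t) (fun K => by
        show xi (flip K i j) t = xi (K j) t
        rw [flip_ne K (Ne.symm hij)])
  calc ∑ K : Vert n, W K t * (∑ i, xi (K i) t * e i) ^ 2
      = ∑ K : Vert n, ∑ i, ∑ j, e i * e j * (W K t * xi (K i) t * xi (K j) t) := by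
        apply Finset.sum_congr rfl
        intro K _
        rw [pow_two, Finset.sum_mul_sum, Finset.mul_sum]
        apply Finset.sum_congr rfl
        intro i _
        rw [Finset.mul_sum]
        apply Finset.sum_congr rfl
        intro j _
        ring
    _ = ∑ i, ∑ j, e i * e j * ∑ K : Vert n, W K t * xi (K i) t * xi (K j) t := by
        rw [Finset.sum_comm]
        apply Finset.sum_congr rfl
        intro i _
        rw [Finset.sum_comm]
        apply Finset.sum_congr rfl
        intro j _
        rw [Finset.mul_sum]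
    _ = ∑ i : Fin n, 1 / (t * (1 - t)) := by
        apply Finset.sum_congr rfl
        intro i _
        rw [Finset.sum_eq_single i]
        · rw [h2, if_pos rfl, he]; ring
        · intro j _ hj
          rw [h2, if_neg (Ne.symm hj)]; ring
        · intro h; exact absurd (mem_univ i) h
    _ = n / (t * (1 - t)) := by
        rw [Finset.sum_const, Finset.card_univ, Fintype.card_fin, nsmul_eq_mul, mul_one_div]

theorem first_moment (hn : 0 < n) {t : ℝ} (h0 : 0 < t) (h1 : t < 1) (e : Fin n → ℝ)
    (he : ∀ i, e i * e i = 1) :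
    ∑ K : Vert n, W K t * |∑ i, xi (K i) t * e i| ≤ Real.sqrt n / Real.sqrt (t * (1 - t)) := by
  have hn' : (0 : ℝ) < n := by exact_mod_cast hn
  have ht : 0 < t * (1 - t) := mul_pos h0 (by linarith)
  set T : ℝ := Real.sqrt n / Real.sqrt (t * (1 - t)) with hT
  have hTpos : 0 < T := div_pos (Real.sqrt_pos.mpr hn') (Real.sqrt_pos.mpr ht)
  have hTsq : T * T = n / (t * (1 - t)) := by
    rw [hT, div_mul_div_comm, Real.mul_self_sqrt hn'.le, Real.mul_self_sqrt ht.le]
  have hpt : ∀ a : ℝ, |a| ≤ (a ^ 2 / T + T) / 2 := by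
    intro a
    have h := sq_nonneg (|a| - T)
    have h3 : |a| ^ 2 = a ^ 2 := sq_abs a
    have : |a| * (2 * T) ≤ a ^ 2 + T * T := by nlinarith
    rw [show (a ^ 2 / T + T) / 2 = (a ^ 2 + T * T) / (2 * T) by field_simp]
    rwa [le_div_iff₀ (by positivity)]
  calc ∑ K : Vert n, W K t * |∑ i, xi (K i) t * e i|
      ≤ ∑ K : Vert n, W K t * (((∑ i, xi (K i) t * e i) ^ 2 / T + T) / 2) := by
        apply Finset.sum_le_sum
        intro K _
        exact mul_le_mul_of_nonneg_left (hpt _) (W_nonneg K h0.le h1.le)
    _ = (∑ K : Vert n, W K t * (∑ i, xi (K i) t * e i) ^ 2) / T / 2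
          + (∑ K : Vert n, W K t) * T / 2 := by
        rw [Finset.sum_div, Finset.sum_div, Finset.sum_mul, Finset.sum_div,
          ← Finset.sum_add_distrib]
        apply Finset.sum_congr rfl
        intro K _
        ring
    _ = T := by
        rw [second_moment h0 h1 e he, sum_W, ← hTsq]
        field_simp
        ring

theorem hasDerivAt_W (K : Vert n) {t : ℝ} (h0 : 0 < t) (h1 : t < 1) :
    HasDerivAt (fun t => W K t) (W K t * ∑ i, xi (K i) t) t := by
  have hw : ∀ i ∈ (univ : Finset (Fin n)),
      HasDerivAt (fun t => wt (K i) t) (wt (K i) t * xi (K i) t) t := by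
    intro i _
    rw [wt_mul_xi _ h0 h1]
    unfold wt
    cases K i
    · simpa using (hasDerivAt_id' t).const_sub 1
    · simpa using hasDerivAt_id' t
  have h := HasDerivAt.fun_finsetProd hw
  have e : (∑ i : Fin n, (∏ j ∈ univ.erase i, wt (K j) t) • (wt (K i) t * xi (K i) t))
      = W K t * ∑ i, xi (K i) t := by
    rw [Finset.mul_sum]
    apply Finset.sum_congr rfl
    intro i _
    have : W K t = wt (K i) t * ∏ j ∈ univ.erase i, wt (K j) t :=
      (Finset.mul_prod_erase univ (fun j => wt (K j) t) (mem_univ i)).symm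
    rw [this, smul_eq_mul]
    ring
  rw [e] at h
  exact h

theorem shift_flip (v K : Vert n) (i : Fin n) : shift v (flip K i) = flip (shift v K) i := by
  funext j
  by_cases h : j = i
  · subst h
    simp only [shift, flip, Function.update_self]
    cases v j <;> cases K j <;> rfl
  · simp [shift, flip, h]

/-- Shifting by a fixed set is a permutation of the vertices. -/
def shiftPerm (K : Vert n) : Equiv.Perm (Vert n) where
  toFun v := shift v K
  invFun v := shift v K
  left_inv v := by funext i; simp [shift]
  right_inv v := by funext i; simp [shift]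

theorem noise_bound (ε : Vert n → Fin n → ℝ) (hε : ∀ y i, ε y i * ε y i = 1)
    (X s : Vert n → Vert n → ℝ) (hs : ∀ v y, |s v y| ≤ 1)
    (hinv : ∀ v y i, X v (flip y i) - 1 / 2 * ε (flip y i) i * s v (flip y i)
      = X v y - 1 / 2 * ε y i * s v y) :
    ∑ v, (X v (anti v) - X v v) ≤ Real.pi / 2 * Real.sqrt n * 2 ^ n := by
  rcases Nat.eq_zero_or_pos n with hn | hn
  · subst hn
    have : ∀ v : Vert 0, anti v = v := fun v => Subsingleton.elim _ _
    simp [this]
  set H : ℝ → ℝ := fun t => ∑ v : Vert n, ∑ K : Vert n, W K t * X v (shift v K) with hH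
  -- endpoint values
  have hH0 : H 0 = ∑ v, X v v := by
    apply Finset.sum_congr rfl
    intro v _
    rw [Finset.sum_eq_single (fun _ => false)]
    · have h1 : W (fun _ : Fin n => false) (0 : ℝ) = 1 := by simp [W, wt]
      have h2 : shift v (fun _ => false) = v := by funext i; simp [shift]
      rw [h1, h2, one_mul]
    · intro K _ hK
      obtain ⟨i, hi⟩ := Function.ne_iff.mp hK
      have h1 : W K (0 : ℝ) = 0 := by
        apply Finset.prod_eq_zero (mem_univ i)
        have : K i = true := by simpa using hi
        simp [wt, this]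
      rw [h1, zero_mul]
    · intro h; exact absurd (mem_univ _) h
  have hH1 : H 1 = ∑ v, X v (anti v) := by
    apply Finset.sum_congr rfl
    intro v _
    rw [Finset.sum_eq_single (fun _ => true)]
    · have h1 : W (fun _ : Fin n => true) (1 : ℝ) = 1 := by simp [W, wt]
      have h2 : shift v (fun _ => true) = anti v := by funext i; simp [shift, anti]
      rw [h1, h2, one_mul]
    · intro K _ hK
      obtain ⟨i, hi⟩ := Function.ne_iff.mp hK
      have h1 : W K (1 : ℝ) = 0 := by
        apply Finset.prod_eq_zero (mem_univ i)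
        have : K i = false := by simpa using hi
        simp [wt, this]
      rw [h1, zero_mul]
    · intro h; exact absurd (mem_univ _) h
  -- continuity
  have hWc : ∀ K : Vert n, Continuous (fun t => W K t) := by
    intro K
    unfold W
    apply continuous_finsetProd
    intro i _
    unfold wt
    cases K i
    · simp only [Bool.false_eq_true, if_false]; exact continuous_const.sub continuous_id
    · simp only [if_true]; exact continuous_id
  have hHc : Continuous H := by
    rw [hH]
    exact continuous_finsetSum _ fun v _ => continuous_finsetSum _ fun K _ =>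
      (hWc K).mul continuous_const
  -- derivative
  set H' : ℝ → ℝ := fun t => ∑ v : Vert n, ∑ K : Vert n,
    W K t * (∑ i, xi (K i) t) * X v (shift v K) with hH'
  have hderiv : ∀ t, 0 < t → t < 1 → HasDerivAt H (H' t) t := by
    intro t h0 h1
    rw [hH, hH']
    apply HasDerivAt.fun_sum
    intro v _
    apply HasDerivAt.fun_sum
    intro K _
    exact (hasDerivAt_W K h0 h1).mul_const _
  have hbound : ∀ t, 0 < t → t < 1 →
      H' t ≤ 1 / 2 * 2 ^ n * (Real.sqrt n / Real.sqrt (t * (1 - t))) := by
    intro t h0 h1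
    have step1 : ∀ v : Vert n, ∑ K : Vert n, W K t * (∑ i, xi (K i) t) * X v (shift v K)
        = ∑ K : Vert n, W K t * (1 / 2 * s v (shift v K)
            * ∑ i, xi (K i) t * ε (shift v K) i) := by
      intro v
      have hz : ∀ i : Fin n, ∑ K : Vert n, W K t * xi (K i) t *
          (X v (shift v K) - 1 / 2 * ε (shift v K) i * s v (shift v K)) = 0 := by
        intro i
        apply sum_flip_zero i h0 h1
        intro K
        rw [shift_flip]
        exact hinv v (shift v K) i
      have hsum : ∑ i : Fin n, ∑ K : Vert n, W K t * xi (K i) t *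
          (X v (shift v K) - 1 / 2 * ε (shift v K) i * s v (shift v K)) = 0 :=
        Finset.sum_eq_zero fun i _ => hz i
      rw [Finset.sum_comm] at hsum
      rw [← sub_eq_zero, ← Finset.sum_sub_distrib, ← hsum]
      apply Finset.sum_congr rfl
      intro K _
      rw [Finset.mul_sum, Finset.mul_sum, Finset.mul_sum, Finset.sum_mul,
        ← Finset.sum_sub_distrib]
      apply Finset.sum_congr rfl
      intro i _
      ring
    have step2 : ∀ v K : Vert n, W K t * (1 / 2 * s v (shift v K)
            * ∑ i, xi (K i) t * ε (shift v K) i)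
          ≤ 1 / 2 * (W K t * |∑ i, xi (K i) t * ε (shift v K) i|) := by
      intro v K
      have hW := W_nonneg K h0.le h1.le
      set a := ∑ i, xi (K i) t * ε (shift v K) i
      have h2 : s v (shift v K) * a ≤ |a| := by
        calc s v (shift v K) * a ≤ |s v (shift v K) * a| := le_abs_self _
          _ = |s v (shift v K)| * |a| := abs_mul _ _
          _ ≤ 1 * |a| := mul_le_mul_of_nonneg_right (hs _ _) (abs_nonneg _)
          _ = |a| := one_mul _
      calc W K t * (1 / 2 * s v (shift v K) * a) = 1 / 2 * (W K t * (s v (shift v K) * a)) := by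
            ring
        _ ≤ 1 / 2 * (W K t * |a|) := by
            apply mul_le_mul_of_nonneg_left _ (by norm_num)
            exact mul_le_mul_of_nonneg_left h2 hW
    calc H' t = ∑ v : Vert n, ∑ K : Vert n, W K t * (1 / 2 * s v (shift v K)
            * ∑ i, xi (K i) t * ε (shift v K) i) := by
          rw [hH']
          exact Finset.sum_congr rfl fun v _ => step1 v
      _ ≤ ∑ v : Vert n, ∑ K : Vert n,
            1 / 2 * (W K t * |∑ i, xi (K i) t * ε (shift v K) i|) :=
          Finset.sum_le_sum fun v _ => Finset.sum_le_sum fun K _ => step2 v K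
      _ = ∑ K : Vert n, ∑ v : Vert n,
            1 / 2 * (W K t * |∑ i, xi (K i) t * ε (shift v K) i|) := Finset.sum_comm
      _ = ∑ K : Vert n, ∑ y : Vert n,
            1 / 2 * (W K t * |∑ i, xi (K i) t * ε y i|) := by
          apply Finset.sum_congr rfl
          intro K _
          exact Equiv.sum_comp (shiftPerm K)
            (fun y => 1 / 2 * (W K t * |∑ i, xi (K i) t * ε y i|))
      _ = ∑ y : Vert n, 1 / 2 * ∑ K : Vert n, W K t * |∑ i, xi (K i) t * ε y i| := by
          rw [Finset.sum_comm]
          apply Finset.sum_congr rfl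
          intro y _
          rw [Finset.mul_sum]
      _ ≤ ∑ y : Vert n, 1 / 2 * (Real.sqrt n / Real.sqrt (t * (1 - t))) := by
          apply Finset.sum_le_sum
          intro y _
          apply mul_le_mul_of_nonneg_left _ (by norm_num)
          exact first_moment hn h0 h1 (ε y) (hε y)
      _ = 1 / 2 * 2 ^ n * (Real.sqrt n / Real.sqrt (t * (1 - t))) := by
          rw [Finset.sum_const, Finset.card_univ]
          simp only [Fintype.card_pi, Fintype.card_bool, Finset.prod_const, Finset.card_univ,
            Fintype.card_fin, nsmul_eq_mul]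
          push_cast
          ring
  -- comparison function
  set C : ℝ := 1 / 2 * 2 ^ n * Real.sqrt n with hC
  set G : ℝ → ℝ := fun t => C * Real.arcsin (2 * t - 1) - H t with hG
  have hGd : ∀ t, 0 < t → t < 1 →
      HasDerivAt G (C * (1 / Real.sqrt (t * (1 - t))) - H' t) t := by
    intro t h0 h1
    have ht : 0 < t * (1 - t) := mul_pos h0 (by linarith)
    have ha : HasDerivAt (fun t : ℝ => Real.arcsin (2 * t - 1))
        (1 / Real.sqrt (t * (1 - t))) t := by
      have h2 : HasDerivAt (fun t : ℝ => 2 * t - 1) 2 t := by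
        simpa using ((hasDerivAt_id t).const_mul 2).sub_const 1
      have h3 := (Real.hasDerivAt_arcsin (x := 2 * t - 1) (by linarith) (by linarith)).comp t h2
      have h4 : 1 / Real.sqrt (1 - (2 * t - 1) ^ 2) * 2 = 1 / Real.sqrt (t * (1 - t)) := by
        rw [show 1 - (2 * t - 1) ^ 2 = 2 ^ 2 * (t * (1 - t)) by ring,
          Real.sqrt_mul (by norm_num), Real.sqrt_sq (by norm_num)]
        have := Real.sqrt_pos.mpr ht
        field_simp
      rw [h4] at h3
      exact h3
    exact (ha.const_mul C).sub (hderiv t h0 h1)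
  have hmono : MonotoneOn G (Set.Icc 0 1) := by
    apply monotoneOn_of_deriv_nonneg (convex_Icc 0 1)
    · apply Continuous.continuousOn
      exact (continuous_const.mul (Real.continuous_arcsin.comp
        ((continuous_const.mul continuous_id).sub continuous_const))).sub hHc
    · rw [interior_Icc]
      intro t ht
      exact (hGd t ht.1 ht.2).differentiableAt.differentiableWithinAt
    · rw [interior_Icc]
      intro t ht
      rw [(hGd t ht.1 ht.2).deriv]
      have := hbound t ht.1 ht.2
      have e : C * (1 / Real.sqrt (t * (1 - t)))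
          = 1 / 2 * 2 ^ n * (Real.sqrt n / Real.sqrt (t * (1 - t))) := by
        rw [hC]; ring
      linarith
  have hfin := hmono (Set.left_mem_Icc.mpr zero_le_one) (Set.right_mem_Icc.mpr zero_le_one)
    zero_le_one
  have e0 : G 0 = -(C * (Real.pi / 2)) - ∑ v, X v v := by
    rw [← hH0]
    simp only [hG]
    rw [show (2 : ℝ) * 0 - 1 = -1 by norm_num, Real.arcsin_neg_one]
    ring
  have e1 : G 1 = C * (Real.pi / 2) - ∑ v, X v (anti v) := by
    rw [← hH1]
    simp only [hG]
    rw [show (2 : ℝ) * 1 - 1 = 1 by norm_num, Real.arcsin_one]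
  rw [e0, e1] at hfin
  rw [Finset.sum_sub_distrib]
  rw [hC] at hfin
  linarith

end noise

/-! ### The upper bound -/

section upper

variable {n : ℕ} (χ : Colouring n)

theorem sum_m_le : ∑ v : Vert n, (m χ v : ℝ) ≤ Real.pi / 2 * Real.sqrt n * 2 ^ n := by
  set ε : Vert n → Fin n → ℝ := fun y i => if col χ y i then -1 else 1 with hε
  set X : Vert n → Vert n → ℝ := fun v y => ((D χ v y false : ℝ) + D χ v y true) / 2 with hX
  set s : Vert n → Vert n → ℝ := fun v y => (D χ v y true : ℝ) - D χ v y false with hs
  have key := noise_bound ε (by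
      intro y i
      simp only [hε]
      split_ifs <;> norm_num) X s (by
      intro v y
      have h1 : (D χ v y true : ℝ) ≤ D χ v y false + 1 := by
        exact_mod_cast D_le_succ χ v y true false
      have h2 : (D χ v y false : ℝ) ≤ D χ v y true + 1 := by
        exact_mod_cast D_le_succ χ v y false true
      simp only [hs]
      rw [abs_le]
      constructor <;> linarith) (by
      intro v y i
      have e : ∀ z : Vert n, X v z - 1 / 2 * ε z i * s v z = D χ v z (col χ z i) := by
        intro z
        simp only [hX, hε, hs]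
        cases col χ z i <;> simp <;> ring
      rw [e, e, D_flip])
  refine le_trans (Finset.sum_le_sum fun v _ => ?_) key
  have h1 : (m χ v : ℝ) ≤ D χ v (anti v) false := by exact_mod_cast m_le_D χ v false
  have h2 : (m χ v : ℝ) ≤ D χ v (anti v) true := by exact_mod_cast m_le_D χ v true
  simp only [hX]
  rw [D_self, D_self]
  push_cast
  linarith

theorem A_le : A χ ≤ Real.pi / 2 * Real.sqrt n := by
  unfold A
  rw [div_le_iff₀ (by positivity)]
  exact sum_m_le χ

/-- In every colouring some antipodal pair is joined with few colour changes. -/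
theorem exists_vertex_le : ∃ v : Vert n, (m χ v : ℝ) ≤ Real.pi / 2 * Real.sqrt n := by
  by_contra h
  push Not at h
  have h1 : ∑ v : Vert n, Real.pi / 2 * Real.sqrt n < ∑ v : Vert n, (m χ v : ℝ) :=
    Finset.sum_lt_sum_of_nonempty univ_nonempty fun v _ => h v
  have h2 := sum_m_le χ
  rw [Finset.sum_const, Finset.card_univ] at h1
  simp only [Fintype.card_pi, Fintype.card_bool, Finset.prod_const, Finset.card_univ,
            Fintype.card_fin, nsmul_eq_mul] at h1
  push_cast at h1
  linarith

theorem bddAbove_A (n : ℕ) : BddAbove (Set.range (fun χ : Colouring n => A χ)) :=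
  ⟨_, by rintro _ ⟨χ, rfl⟩; exact A_le χ⟩

theorem M_le (n : ℕ) : M n ≤ Real.pi / 2 * Real.sqrt n := by
  have : Nonempty (Colouring n) := ⟨fun _ => true⟩
  exact ciSup_le fun χ => A_le χ

theorem A_le_M : A χ ≤ M n := le_ciSup (bddAbove_A n) χ

/-- The supremum defining `M n` is attained, so it is a maximum. -/
theorem exists_A_eq_M (n : ℕ) : ∃ χ : Colouring n, A χ = M n := by
  have : Nonempty (Colouring n) := ⟨fun _ => true⟩
  have : Finite (Colouring n) := inferInstance
  exact exists_eq_ciSup_of_finite

end upper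

/-! ### The lower bound: the colouring by layers -/

section lower

variable {n : ℕ}

/-- The level of a vertex: its number of ones. -/
def level (v : Vert n) : ℕ := (univ.filter (fun i => v i = true)).card

theorem level_flip (y : Vert n) (i : Fin n) :
    level (flip y i) = if y i then level y - 1 else level y + 1 := by
  unfold level
  cases hy : y i
  · have e : univ.filter (fun j => flip y i j = true)
        = insert i (univ.filter (fun j => y j = true)) := by
      ext j
      by_cases h : j = i
      · subst h; simp [flip_same, hy]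
      · simp [flip_ne y h, h]
    rw [e, Finset.card_insert_of_notMem (by simp [hy])]
    simp
  · have e : univ.filter (fun j => flip y i j = true)
        = (univ.filter (fun j => y j = true)).erase i := by
      ext j
      by_cases h : j = i
      · subst h; simp [flip_same, hy]
      · simp [flip_ne y h, h]
    rw [e, Finset.card_erase_of_mem (by simp [hy])]
    simp

theorem level_pos {y : Vert n} {i : Fin n} (h : y i = true) : 0 < level y :=
  Finset.card_pos.mpr ⟨i, by simp [h]⟩

/-- Adjacent vertices lie on consecutive levels. -/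
theorem level_adj {x y : Vert n} (h : (Q n).Adj x y) :
    level y = level x + 1 ∨ level x = level y + 1 := by
  obtain ⟨i, rfl⟩ := adj_iff_flip h
  rw [level_flip]
  cases hy : x i
  · left; simp
  · right
    have := level_pos hy
    simp only [if_true]
    omega

/-- The colouring by layers: the colour of an edge is the parity of its lower level. -/
def layer (n : ℕ) : Colouring n := fun e =>
  Sym2.lift ⟨fun x y : Vert n => decide (min (level x) (level y) % 2 = 0), fun x y => by
    simp only [min_comm (level x)]⟩ e.1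

theorem layer_apply {x y : Vert n} (h : s(x, y) ∈ (Q n).edgeSet) :
    layer n ⟨s(x, y), h⟩ = decide (min (level x) (level y) % 2 = 0) := rfl

/-- The label of the monochromatic component of colour `c` through a vertex of level `k`. -/
def lab (c : Bool) (k : ℕ) : ℤ := if c then 2 * ((k : ℤ) / 2) else 2 * (((k : ℤ) + 1) / 2) - 1

theorem lab_near (c : Bool) (k : ℕ) : (k : ℤ) - 1 ≤ lab c k ∧ lab c k ≤ k := by
  unfold lab
  split_ifs <;> omega

theorem lab_step (c c' : Bool) (k : ℕ) :
    |lab c k - lab c' k| ≤ ((if c = c' then 0 else 1 : ℕ) : ℤ) := by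
  cases c <;> cases c' <;> simp [lab] <;> rw [abs_le] <;> omega

theorem lab_edge {x y : Vert n} (h : (Q n).Adj x y) :
    lab (layer n ⟨s(x, y), (SimpleGraph.mem_edgeSet (Q n)).mpr h⟩) (level x)
      = lab (layer n ⟨s(x, y), (SimpleGraph.mem_edgeSet (Q n)).mpr h⟩) (level y) := by
  rw [layer_apply]
  rcases level_adj h with h1 | h1
  · rw [h1, min_eq_left (by omega)]
    by_cases h2 : level x % 2 = 0
    · simp only [h2, decide_true, lab, if_true]; push_cast; omega
    · simp only [h2, decide_false, lab, Bool.false_eq_true, if_false]; push_cast; omega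
  · rw [h1, min_eq_right (by omega)]
    by_cases h2 : level y % 2 = 0
    · simp only [h2, decide_true, lab, if_true]; push_cast; omega
    · simp only [h2, decide_false, lab, Bool.false_eq_true, if_false]; push_cast; omega

theorem lab_walk {u v : Vert n} (w : (Q n).Walk u v) (c c' : Bool) :
    |lab c (level u) - lab c' (level v)|
      ≤ (numChanges (c :: (colours (layer n) w ++ [c'])) : ℤ) := by
  induction w generalizing c with
  | @nil u =>
    have := lab_step c c' (level u)
    simpa [colours, numChanges] using this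
  | @cons u u' v h w ih =>
    have h1 := ih (layer n ⟨s(u, u'), (SimpleGraph.mem_edgeSet (Q n)).mpr h⟩)
    have h2 := lab_edge h
    have h3 := lab_step c (layer n ⟨s(u, u'), (SimpleGraph.mem_edgeSet (Q n)).mpr h⟩) (level u)
    have h4 : colours (layer n) (SimpleGraph.Walk.cons h w)
        = layer n ⟨s(u, u'), (SimpleGraph.mem_edgeSet (Q n)).mpr h⟩ :: colours (layer n) w := by
      simp [colours]
    rw [h4, List.cons_append]
    simp only [numChanges]
    push_cast at h3 ⊢
    have h5 := abs_sub_le (lab c (level u))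
      (lab (layer n ⟨s(u, u'), (SimpleGraph.mem_edgeSet (Q n)).mpr h⟩) (level u))
      (lab c' (level v))
    rw [h2] at h5 h3
    linarith

theorem numChanges_ends (l : List Bool) :
    ∃ c c' : Bool, numChanges (c :: (l ++ [c'])) = numChanges l := by
  have h1 : ∀ l : List Bool, ∃ c', numChanges (l ++ [c']) = numChanges l := by
    intro l
    induction l with
    | nil => exact ⟨true, rfl⟩
    | cons a l ih =>
      cases l with
      | nil => exact ⟨a, by simp [numChanges]⟩
      | cons b l =>
        obtain ⟨c', hc'⟩ := ih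
        refine ⟨c', ?_⟩
        simp only [List.cons_append, numChanges] at hc' ⊢
        omega
  cases l with
  | nil => exact ⟨true, true, by simp [numChanges]⟩
  | cons a l =>
    obtain ⟨c', hc'⟩ := h1 (a :: l)
    refine ⟨a, c', ?_⟩
    rw [← hc']
    simp [numChanges]

theorem level_anti (v : Vert n) : level (anti v) + level v = n := by
  unfold level
  have e : univ.filter (fun i => anti v i = true) = univ.filter (fun i => ¬ (v i = true)) := by
    ext i; simp [anti]
  rw [e, add_comm, Finset.card_filter_add_card_filter_not, Finset.card_univ, Fintype.card_fin]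

theorem layer_m (v : Vert n) : |(n : ℝ) - 2 * level v| - 1 ≤ m (layer n) v := by
  have hne : {k : ℕ | ∃ w : (Q n).Walk v (anti v), w.IsPath ∧
      numChanges (colours (layer n) w) = k}.Nonempty := by
    obtain ⟨w⟩ := exists_walk v (anti v)
    exact ⟨_, w.bypass, w.bypass_isPath, rfl⟩
  obtain ⟨w, -, hw⟩ := Nat.sInf_mem hne
  have hw' : numChanges (colours (layer n) w) = m (layer n) v := hw
  obtain ⟨c, c', hc⟩ := numChanges_ends (colours (layer n) w)
  have h1 := lab_walk w c c'
  rw [hc, hw'] at h1
  have h2 := lab_near c (level v)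
  have h3 := lab_near c' (level (anti v))
  have h4 := level_anti v
  have h5 : |(n : ℤ) - 2 * level v| ≤ m (layer n) v + 1 := by
    rw [abs_le] at h1 ⊢
    omega
  have h6 : |(n : ℝ) - 2 * level v| ≤ m (layer n) v + 1 := by exact_mod_cast h5
  linarith

/-- Vertices of the cube correspond to subsets. -/
def vertEquiv (n : ℕ) : Vert n ≃ Finset (Fin n) where
  toFun v := univ.filter (fun i => v i = true)
  invFun s := fun i => decide (i ∈ s)
  left_inv v := by funext i; simp
  right_inv s := by ext i; simp

theorem sum_level (f : ℕ → ℝ) :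
    ∑ v : Vert n, f (level v) = ∑ k ∈ range (n + 1), (n.choose k : ℝ) * f k := by
  have h1 : ∑ v : Vert n, f (level v) = ∑ s : Finset (Fin n), f s.card :=
    Equiv.sum_comp (vertEquiv n) (fun s : Finset (Fin n) => f s.card)
  rw [h1, ← Finset.powerset_univ, Finset.sum_powerset_apply_card, Finset.card_univ,
    Fintype.card_fin]
  simp

theorem choose_telescope (n j : ℕ) :
    ∑ k ∈ range (j + 1), ((n + 1).choose k : ℝ) * ((n : ℝ) + 1 - 2 * k)
      = (n + 1) * (n.choose j : ℝ) := by
  induction j with
  | zero => simp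
  | succ j ih =>
    rw [Finset.sum_range_succ, ih]
    have h1 : ((n : ℝ) + 1) * (n.choose j : ℝ) = ((n + 1).choose (j + 1) : ℝ) * (j + 1) := by
      exact_mod_cast Nat.add_one_mul_choose_eq n j
    have h2 : ((n + 1).choose (j + 1) : ℝ) = (n.choose j : ℝ) + (n.choose (j + 1) : ℝ) := by
      exact_mod_cast Nat.choose_succ_succ n j
    push_cast
    nlinarith [h1, h2]

theorem sum_abs_level (n : ℕ) (j : ℕ) (hj : j ≤ n) :
    2 * ((n : ℝ) + 1) * (n.choose j : ℝ)
      ≤ ∑ v : Vert (n + 1), |((n + 1 : ℕ) : ℝ) - 2 * level v| := by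
  rw [sum_level (fun k => |((n + 1 : ℕ) : ℝ) - 2 * k|)]
  have hfull := choose_telescope n (n + 1)
  rw [Nat.choose_succ_self, Nat.cast_zero, mul_zero] at hfull
  have hpart := choose_telescope n j
  have hsplit : ∀ f : ℕ → ℝ, ∑ k ∈ range (n + 1 + 1), f k
      = ∑ k ∈ range (j + 1), f k + ∑ k ∈ Ico (j + 1) (n + 1 + 1), f k := by
    intro f
    rw [Finset.range_eq_Ico, Finset.range_eq_Ico,
      Finset.sum_Ico_consecutive f (Nat.zero_le _) (by omega)]
  rw [hsplit] at hfull ⊢
  have h1 : ∑ k ∈ range (j + 1), ((n + 1).choose k : ℝ) * ((n : ℝ) + 1 - 2 * k)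
      ≤ ∑ k ∈ range (j + 1), ((n + 1).choose k : ℝ) * |((n + 1 : ℕ) : ℝ) - 2 * k| := by
    apply Finset.sum_le_sum
    intro k _
    apply mul_le_mul_of_nonneg_left _ (Nat.cast_nonneg _)
    push_cast
    exact le_abs_self _
  have h2 : -∑ k ∈ Ico (j + 1) (n + 1 + 1), ((n + 1).choose k : ℝ) * ((n : ℝ) + 1 - 2 * k)
      ≤ ∑ k ∈ Ico (j + 1) (n + 1 + 1),
        ((n + 1).choose k : ℝ) * |((n + 1 : ℕ) : ℝ) - 2 * k| := by
    rw [← Finset.sum_neg_distrib]
    apply Finset.sum_le_sum
    intro k _
    rw [← mul_neg]
    apply mul_le_mul_of_nonneg_left _ (Nat.cast_nonneg _)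
    push_cast
    exact neg_le_abs _
  linarith

theorem central_sq (k : ℕ) :
    ((k.centralBinom : ℝ) / 4 ^ k) ^ 2 * ((2 * k + 1) * Real.Wallis.W k) = 1 := by
  induction k with
  | zero => simp [Real.Wallis.W]
  | succ k ih =>
    rw [Real.Wallis.W_succ]
    have h1 : ((k : ℝ) + 1) * ((k + 1).centralBinom : ℝ) = 2 * (2 * k + 1) * (k.centralBinom : ℝ) := by
      exact_mod_cast Nat.succ_mul_centralBinom_succ k
    have hk : (k : ℝ) + 1 ≠ 0 := by positivity
    have h2 : ((k + 1).centralBinom : ℝ) = 2 * (2 * k + 1) * (k.centralBinom : ℝ) / (k + 1) := by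
      rw [eq_div_iff hk, mul_comm]; exact h1
    rw [h2]
    have h3 : (2 * (k : ℝ) + 1) ≠ 0 := by positivity
    have h4 : (2 * (k : ℝ) + 3) ≠ 0 := by positivity
    have h5 : (2 * (2 * (k : ℝ) + 1) * (k.centralBinom : ℝ) / (k + 1) / 4 ^ (k + 1)) ^ 2 *
        ((2 * ((k + 1 : ℕ) : ℝ) + 1) *
          (Real.Wallis.W k * ((2 * k + 2) / (2 * k + 1) * ((2 * k + 2) / (2 * k + 3)))))
        = ((k.centralBinom : ℝ) / 4 ^ k) ^ 2 * ((2 * k + 1) * Real.Wallis.W k) := by
      push_cast
      rw [show (2 * ((k : ℝ) + 1) + 1) = 2 * k + 3 by ring,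
        show (2 * (k : ℝ) + 2) = 2 * (k + 1) by ring, pow_succ (4 : ℝ) k]
      field_simp
      ring
    rw [h5, ih]

theorem central_lower (k : ℕ) :
    Real.sqrt (2 / Real.pi) / Real.sqrt (2 * k + 1) ≤ (k.centralBinom : ℝ) / 4 ^ k := by
  have hpi := Real.pi_pos
  have h1 := central_sq k
  have hW := Real.Wallis.W_le k
  have hW0 := Real.Wallis.W_pos k
  have hk : (0 : ℝ) < 2 * k + 1 := by positivity
  rw [← Real.sqrt_div (by positivity)]
  apply Real.sqrt_le_iff.mpr
  refine ⟨by positivity, ?_⟩
  have h2 : 2 / Real.pi * Real.Wallis.W k ≤ 1 := by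
    rw [div_mul_eq_mul_div, div_le_one hpi]
    linarith
  rw [div_le_iff₀ hk]
  set b := ((k.centralBinom : ℝ) / 4 ^ k) ^ 2
  have hb : 0 ≤ b := sq_nonneg _
  have h3 : b * (2 * k + 1) * Real.Wallis.W k = 1 := by rw [mul_assoc]; exact h1
  by_contra hcon
  push Not at hcon
  have : b * (2 * k + 1) * Real.Wallis.W k < 2 / Real.pi * Real.Wallis.W k :=
    mul_lt_mul_of_pos_right hcon hW0
  linarith

theorem mid_lower (n : ℕ) : Real.sqrt (2 / Real.pi) * (Real.sqrt ((n + 1 : ℕ) : ℝ) - 1)
    ≤ (n + 1) * ((n.choose (n / 2) : ℝ) / 2 ^ n) := by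
  have hc : 0 ≤ Real.sqrt (2 / Real.pi) := Real.sqrt_nonneg _
  rcases Nat.even_or_odd' n with ⟨k, hk | hk⟩
  · subst hk
    have h1 := central_lower k
    have e1 : (2 * k / 2) = k := by omega
    rw [e1, ← Nat.centralBinom_eq_two_mul_choose, pow_mul, show (2 : ℝ) ^ 2 = 4 by norm_num]
    have hk : (0 : ℝ) < 2 * k + 1 := by positivity
    have h2 : Real.sqrt (2 / Real.pi) * Real.sqrt (2 * k + 1)
        = (2 * k + 1) * (Real.sqrt (2 / Real.pi) / Real.sqrt (2 * k + 1)) := by
      have := Real.mul_self_sqrt hk.le
      have hs : Real.sqrt (2 * (k : ℝ) + 1) ≠ 0 := (Real.sqrt_pos.mpr hk).ne'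
      field_simp
      nlinarith
    have h3 : (2 * (k : ℝ) + 1) * (Real.sqrt (2 / Real.pi) / Real.sqrt (2 * k + 1))
        ≤ (2 * k + 1) * ((k.centralBinom : ℝ) / 4 ^ k) :=
      mul_le_mul_of_nonneg_left h1 hk.le
    push_cast
    nlinarith
  · subst hk
    have h1 := central_lower (k + 1)
    have e1 : ((2 * k + 1) / 2) = k := by omega
    have e2 : (((k + 1).centralBinom : ℝ)) = 2 * ((2 * k + 1).choose k : ℝ) := by
      have : (k + 1).centralBinom = 2 * (2 * k + 1).choose k := by
        rw [Nat.centralBinom_eq_two_mul_choose, show 2 * (k + 1) = (2 * k + 1) + 1 by ring,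
          Nat.choose_succ_succ, Nat.choose_symm_half]
        ring
      exact_mod_cast this
    rw [e1]
    have e3 : ((2 * k + 1).choose k : ℝ) / 2 ^ (2 * k + 1)
        = ((k + 1).centralBinom : ℝ) / 4 ^ (k + 1) := by
      rw [e2, show (4 : ℝ) = 2 ^ 2 by norm_num, ← pow_mul, show 2 * (k + 1) = (2 * k + 1) + 1 by ring,
        pow_succ (2 : ℝ) (2 * k + 1)]
      field_simp
    rw [e3]
    set N : ℝ := 2 * k + 2 with hN
    have hNpos : 2 ≤ N := by have : (0 : ℝ) ≤ k := Nat.cast_nonneg k; linarith
    have h2 : Real.sqrt (2 * ((k + 1 : ℕ) : ℝ) + 1) = Real.sqrt (N + 1) := by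
      congr 1; push_cast; ring
    rw [h2] at h1
    have h3 : (((2 * k + 1 : ℕ) + 1 : ℕ) : ℝ) = N := by push_cast; ring
    have h4 : (((2 * k + 1 : ℕ) : ℝ) + 1) = N := by push_cast; ring
    rw [h3, h4]
    set a := Real.sqrt N with ha
    set b := Real.sqrt (N + 1) with hb
    have ha2 : a * a = N := Real.mul_self_sqrt (by linarith)
    have hb2 : b * b = N + 1 := Real.mul_self_sqrt (by linarith)
    have ha0 : 0 ≤ a := Real.sqrt_nonneg _
    have hb0 : 0 < b := Real.sqrt_pos.mpr (by linarith)
    have ha1 : 1 ≤ a := by nlinarith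
    have hb1 : 1 ≤ b := by nlinarith
    have hab : (a - 1) * b ≤ N := by nlinarith [sq_nonneg (a - b)]
    have h5 : a - 1 ≤ N / b := by rwa [le_div_iff₀ hb0]
    calc Real.sqrt (2 / Real.pi) * (a - 1) ≤ Real.sqrt (2 / Real.pi) * (N / b) :=
          mul_le_mul_of_nonneg_left h5 hc
      _ = N * (Real.sqrt (2 / Real.pi) / b) := by ring
      _ ≤ N * (((k + 1).centralBinom : ℝ) / 4 ^ (k + 1)) :=
          mul_le_mul_of_nonneg_left h1 (by linarith)

theorem M_ge (n : ℕ) : Real.sqrt (2 / Real.pi) * Real.sqrt n - 2 ≤ M n := by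
  have hc1 : Real.sqrt (2 / Real.pi) ≤ 1 := by
    apply Real.sqrt_le_one.mpr
    rw [div_le_one Real.pi_pos]
    linarith [Real.pi_gt_three]
  have hc0 := Real.sqrt_nonneg (2 / Real.pi)
  rcases Nat.eq_zero_or_pos n with hn | hn
  · subst hn
    have h0 : (0 : ℝ) ≤ M 0 := by
      refine le_trans ?_ (A_le_M (layer 0))
      unfold A
      positivity
    simp only [Nat.cast_zero, Real.sqrt_zero, mul_zero]
    linarith
  · obtain ⟨k, rfl⟩ : ∃ k, n = k + 1 := ⟨n - 1, by omega⟩
    refine le_trans ?_ (A_le_M (layer (k + 1)))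
    unfold A
    have h1 := mid_lower k
    have h2 := sum_abs_level k (k / 2) (Nat.div_le_self _ _)
    have h3 : ∑ v : Vert (k + 1), (|((k + 1 : ℕ) : ℝ) - 2 * level v| - 1)
        ≤ ∑ v : Vert (k + 1), (m (layer (k + 1)) v : ℝ) :=
      Finset.sum_le_sum fun v _ => layer_m v
    rw [Finset.sum_sub_distrib, Finset.sum_const, Finset.card_univ] at h3
    simp only [Fintype.card_pi, Fintype.card_bool, Finset.prod_const, Finset.card_univ,
            Fintype.card_fin, nsmul_eq_mul] at h3
    rw [le_div_iff₀ (by positivity)]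
    have hp : (0 : ℝ) < 2 ^ (k + 1) := by positivity
    have h4 : (((k : ℝ) + 1) * ((k.choose (k / 2) : ℝ) / 2 ^ k)) * 2 ^ (k + 1)
        = 2 * ((k : ℝ) + 1) * (k.choose (k / 2) : ℝ) := by
      rw [pow_succ]; field_simp
    have h5 := mul_le_mul_of_nonneg_right h1 hp.le
    rw [h4] at h5
    push_cast at h2 h3 h5 ⊢
    nlinarith

end lower

/-! ### The order of growth -/

theorem isTheta_M : (fun n : ℕ => M n) =Θ[Filter.atTop] (fun n : ℕ => Real.sqrt n) := by
  have hlow : ∀ n : ℕ, 0.7 * Real.sqrt n - 2 ≤ M n := by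
    intro n
    have h1 := M_ge n
    have h2 : (0.7 : ℝ) ≤ Real.sqrt (2 / Real.pi) := by
      apply Real.le_sqrt_of_sq_le
      rw [le_div_iff₀ Real.pi_pos]
      nlinarith [Real.pi_le_four, Real.pi_pos]
    have h3 := mul_le_mul_of_nonneg_right h2 (Real.sqrt_nonneg (n : ℝ))
    linarith
  constructor
  · apply Asymptotics.IsBigO.of_bound (Real.pi / 2)
    filter_upwards [Filter.eventually_ge_atTop 100] with n hn
    have h100 : (10 : ℝ) ≤ Real.sqrt n := by
      apply Real.le_sqrt_of_sq_le
      have : (100 : ℝ) ≤ n := by exact_mod_cast hn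
      linarith
    have h1 := hlow n
    rw [Real.norm_of_nonneg (Real.sqrt_nonneg _), Real.norm_of_nonneg (by linarith)]
    exact M_le n
  · apply Asymptotics.IsBigO.of_bound 2
    filter_upwards [Filter.eventually_ge_atTop 100] with n hn
    have h100 : (10 : ℝ) ≤ Real.sqrt n := by
      apply Real.le_sqrt_of_sq_le
      have : (100 : ℝ) ≤ n := by exact_mod_cast hn
      linarith
    have h1 := hlow n
    rw [Real.norm_of_nonneg (Real.sqrt_nonneg _), Real.norm_of_nonneg (by linarith)]
    linarith

/-- `m χ v` is attained by some path, so it is a genuine minimum. -/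
theorem exists_path_eq_m {n : ℕ} (χ : Colouring n) (v : Vert n) :
    ∃ w : (Q n).Walk v (anti v), w.IsPath ∧ numChanges (colours χ w) = m χ v := by
  have hne : {k : ℕ | ∃ w : (Q n).Walk v (anti v), w.IsPath ∧
      numChanges (colours χ w) = k}.Nonempty := by
    obtain ⟨w⟩ := exists_walk v (anti v)
    exact ⟨_, w.bypass, w.bypass_isPath, rfl⟩
  exact Nat.sInf_mem hne

/-- The order of growth of `M n` is the square root of `n`, with explicit constants. -/
theorem result :
    (fun n : ℕ => M n) =Θ[Filter.atTop] (fun n : ℕ => Real.sqrt n) ∧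
    ∀ n : ℕ, Real.sqrt (2 / Real.pi) * Real.sqrt n - 2 ≤ M n ∧
      M n ≤ Real.pi / 2 * Real.sqrt n :=
  ⟨isTheta_M, fun n => ⟨M_ge n, M_le n⟩⟩

end Pool.Agent.Results.MP_c14f63_co.OrderOfGrowth
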